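import Pool.Graph.R_pool_sql_team_seeded_64922ed1.X26.CM.Base

/-!
# Completely multiplicative functions: changing the values at the small primes

`f₀` completely multiplicative with partial sums `O(N^(-θ₀))`.  The values at the primes below `y` are
replaced by those of `h`, where `h(n) = o(n^(-θ))`, `θ < θ₀`.  The new function has partial sums
`O(N^(-θ-c))` and is within `ε n^(-θ)` of `h`, if `y` is large.
-/

set_option autoImplicit false

open Finset Filter Topology Asymptotics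

namespace Pool.Agent.KS6_1.CMO

/-- completely multiplicative on the positive integers -/
def CM (f : ℕ → ℂ) : Prop := f 1 = 1 ∧ ∀ m n : ℕ, 1 ≤ m → 1 ≤ n → f (m * n) = f m * f n

theorem CM.pow {f : ℕ → ℂ} (hf : CM f) (n : ℕ) (hn : 1 ≤ n) (k : ℕ) : f (n ^ k) = f n ^ k := by
  induction k with
  | zero => simpa using hf.1
  | succ k ih => rw [pow_succ, hf.2 _ _ (Nat.one_le_pow _ _ hn) hn, ih, pow_succ]

/-- a completely multiplicative function bounded by `C n^(-θ)` is bounded by `n^(-θ)` -/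
theorem CM.le_of_bound {f : ℕ → ℂ} (hf : CM f) (θ C : ℝ)
    (h : ∀ n : ℕ, 1 ≤ n → ‖f n‖ * (n : ℝ) ^ θ ≤ C) (n : ℕ) (hn : 1 ≤ n) :
    ‖f n‖ * (n : ℝ) ^ θ ≤ 1 := by
  by_contra hcon
  rw [not_le] at hcon
  obtain ⟨k, hk⟩ := ((tendsto_pow_atTop_atTop_of_one_lt hcon).eventually_gt_atTop C).exists
  have h1 := h (n ^ k) (Nat.one_le_pow _ _ hn)
  rw [hf.pow n hn k, norm_pow] at h1
  have h2 : (((n ^ k : ℕ) : ℝ)) ^ θ = ((n : ℝ) ^ θ) ^ k := by
    push_cast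
    rw [← Real.rpow_natCast, ← Real.rpow_natCast, ← Real.rpow_mul (Nat.cast_nonneg n),
      ← Real.rpow_mul (Nat.cast_nonneg n), mul_comm]
  rw [h2, ← mul_pow] at h1
  linarith

/-- a completely multiplicative function which is `o(n^(-θ))` is smaller than `n^(-θ)` for `n ≥ 2` -/
theorem CM.lt_of_little {f : ℕ → ℂ} (hf : CM f) (θ : ℝ)
    (h : Tendsto (fun n : ℕ => ‖f n‖ * (n : ℝ) ^ θ) atTop (𝓝 0)) (n : ℕ) (hn : 2 ≤ n) :
    ‖f n‖ * (n : ℝ) ^ θ < 1 := by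
  by_contra hcon
  rw [not_lt] at hcon
  have h1 : Tendsto (fun k : ℕ => n ^ k) atTop atTop :=
    tendsto_pow_atTop_atTop_of_one_lt (by omega)
  have h2 := (h.comp h1).eventually_lt_const (zero_lt_one (α := ℝ))
  obtain ⟨k, hk⟩ := h2.exists
  simp only [Function.comp] at hk
  have h3 : (((n ^ k : ℕ) : ℝ)) ^ θ = ((n : ℝ) ^ θ) ^ k := by
    push_cast
    rw [← Real.rpow_natCast, ← Real.rpow_natCast, ← Real.rpow_mul (Nat.cast_nonneg n),
      ← Real.rpow_mul (Nat.cast_nonneg n), mul_comm]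
  rw [hf.pow n (by omega) k, norm_pow, h3, ← mul_pow] at hk
  exact absurd (one_le_pow₀ hcon (n := k)) (not_le.mpr hk)

/-- small values at the large primes and agreement at the small primes: the values at all integers -/
theorem close {f h : ℕ → ℂ} (hf : CM f) (hh : CM h) (θ ε : ℝ) (y : ℕ) (hε : 0 ≤ ε) (hε1 : ε ≤ 1)
    (hh1 : ∀ p : ℕ, p.Prime → ‖h p‖ * (p : ℝ) ^ θ ≤ 1)
    (hsm : ∀ p : ℕ, p.Prime → p < y → f p = h p)
    (hf2 : ∀ p : ℕ, p.Prime → y ≤ p → ‖f p‖ * (p : ℝ) ^ θ ≤ ε)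
    (hh2 : ∀ p : ℕ, p.Prime → y ≤ p → ‖h p‖ * (p : ℝ) ^ θ ≤ ε) (n : ℕ) (hn : 1 ≤ n) :
    ‖f n‖ * (n : ℝ) ^ θ ≤ 1 ∧ ‖h n‖ * (n : ℝ) ^ θ ≤ 1 ∧
    ((∀ p : ℕ, p.Prime → p ∣ n → p < y) → f n = h n) ∧
    ‖f n - h n‖ * (n : ℝ) ^ θ ≤ 2 * ε := by
  have key : ∀ n : ℕ, 1 ≤ n → ‖f n‖ * (n : ℝ) ^ θ ≤ 1 ∧ ‖h n‖ * (n : ℝ) ^ θ ≤ 1 ∧
      ((∀ p : ℕ, p.Prime → p ∣ n → p < y) → f n = h n) ∧
      ((∃ p : ℕ, p.Prime ∧ p ∣ n ∧ y ≤ p) → ‖f n‖ * (n : ℝ) ^ θ ≤ ε ∧ ‖h n‖ * (n : ℝ) ^ θ ≤ ε) := by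
    intro n
    induction n using Nat.recOnMul with
    | zero => intro h0; omega
    | one =>
      intro _
      refine ⟨by simp [hf.1], by simp [hh.1], fun _ => by rw [hf.1, hh.1], ?_⟩
      rintro ⟨p, hp, hp1, -⟩
      exact absurd (Nat.dvd_one.mp hp1) hp.one_lt.ne'
    | prime p hp =>
      intro _
      have hfp : ‖f p‖ * (p : ℝ) ^ θ ≤ 1 := by
        by_cases hpy : p < y
        · rw [hsm p hp hpy]; exact hh1 p hp
        · exact (hf2 p hp (not_lt.mp hpy)).trans hε1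
      refine ⟨hfp, hh1 p hp, fun H => hsm p hp (H p hp dvd_rfl), ?_⟩
      rintro ⟨q, hq, hqp, hyq⟩
      have : q = p := (Nat.prime_dvd_prime_iff_eq hq hp).mp hqp
      subst this
      exact ⟨hf2 q hq hyq, hh2 q hq hyq⟩
    | mul a b iha ihb =>
      intro hab
      have ha : 1 ≤ a := Nat.pos_of_mul_pos_left hab |> fun h => by
        rcases Nat.eq_zero_or_pos a with h0 | h0
        · subst h0; simp at hab
        · exact h0
      have hb : 1 ≤ b := by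
        rcases Nat.eq_zero_or_pos b with h0 | h0
        · subst h0; simp at hab
        · exact h0
      obtain ⟨a1, a2, a3, a4⟩ := iha ha
      obtain ⟨b1, b2, b3, b4⟩ := ihb hb
      have hr : (((a * b : ℕ) : ℝ)) ^ θ = (a : ℝ) ^ θ * (b : ℝ) ^ θ := by
        push_cast
        exact Real.mul_rpow (Nat.cast_nonneg _) (Nat.cast_nonneg _)
      have ef : ‖f (a * b)‖ * (((a * b : ℕ) : ℝ)) ^ θ =
          (‖f a‖ * (a : ℝ) ^ θ) * (‖f b‖ * (b : ℝ) ^ θ) := by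
        rw [hf.2 a b ha hb, norm_mul, hr]; ring
      have eh : ‖h (a * b)‖ * (((a * b : ℕ) : ℝ)) ^ θ =
          (‖h a‖ * (a : ℝ) ^ θ) * (‖h b‖ * (b : ℝ) ^ θ) := by
        rw [hh.2 a b ha hb, norm_mul, hr]; ring
      have na : (0 : ℝ) ≤ ‖f a‖ * (a : ℝ) ^ θ := by positivity
      have nb : (0 : ℝ) ≤ ‖f b‖ * (b : ℝ) ^ θ := by positivity
      have na' : (0 : ℝ) ≤ ‖h a‖ * (a : ℝ) ^ θ := by positivity
      have nb' : (0 : ℝ) ≤ ‖h b‖ * (b : ℝ) ^ θ := by positivity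
      refine ⟨?_, ?_, ?_, ?_⟩
      · rw [ef]; exact mul_le_one₀ a1 nb b1
      · rw [eh]; exact mul_le_one₀ a2 nb' b2
      · intro H
        rw [hf.2 a b ha hb, hh.2 a b ha hb, a3 fun p hp hpa => H p hp (hpa.mul_right b),
          b3 fun p hp hpb => H p hp (hpb.mul_left a)]
      · rintro ⟨p, hp, hpab, hyp⟩
        rw [ef, eh]
        rcases (Nat.Prime.dvd_mul hp).mp hpab with hpa | hpb
        · obtain ⟨c1, c2⟩ := a4 ⟨p, hp, hpa, hyp⟩
          exact ⟨(mul_le_of_le_one_right na b1).trans c1, (mul_le_of_le_one_right na' b2).trans c2⟩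
        · obtain ⟨c1, c2⟩ := b4 ⟨p, hp, hpb, hyp⟩
          exact ⟨(mul_le_of_le_one_left nb a1).trans c1, (mul_le_of_le_one_left nb' a2).trans c2⟩
  obtain ⟨k1, k2, k3, k4⟩ := key n hn
  refine ⟨k1, k2, k3, ?_⟩
  by_cases H : ∀ p : ℕ, p.Prime → p ∣ n → p < y
  · rw [k3 H, sub_self, norm_zero, zero_mul]; linarith
  · push Not at H
    obtain ⟨c1, c2⟩ := k4 H
    calc ‖f n - h n‖ * (n : ℝ) ^ θ ≤ (‖f n‖ + ‖h n‖) * (n : ℝ) ^ θ := by
          gcongr
          exact norm_sub_le _ _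
      _ ≤ 2 * ε := by rw [add_mul]; linarith

/-- the values of a function with partial sums `O(N^(-θ))` -/
theorem term_bound {f : ℕ → ℂ} (θ C : ℝ) (hθ : 0 ≤ θ)
    (hC : ∀ N : ℕ, 1 ≤ N → ‖∑ n ∈ Icc 1 N, f n‖ ≤ C * (N : ℝ) ^ (-θ)) (n : ℕ) (hn : 1 ≤ n) :
    ‖f n‖ * (n : ℝ) ^ θ ≤ C + C * 2 ^ θ := by
  have hC0 : 0 ≤ C := by
    have := hC 1 le_rfl
    rw [Nat.cast_one, Real.one_rpow, mul_one] at this
    exact (norm_nonneg _).trans this
  rcases Nat.lt_or_ge n 2 with h2 | h2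
  · have : n = 1 := by omega
    subst this
    have h1 := hC 1 le_rfl
    simp only [Icc_self, sum_singleton, Nat.cast_one, Real.one_rpow, mul_one] at h1
    rw [Nat.cast_one, Real.one_rpow, mul_one]
    have : 0 ≤ C * 2 ^ θ := by positivity
    linarith
  · have hn0 : (0 : ℝ) < n := by exact_mod_cast hn
    have e : f n = (∑ k ∈ Icc 1 n, f k) - ∑ k ∈ Icc 1 (n - 1), f k := by
      obtain ⟨m, rfl⟩ : ∃ m, n = m + 1 := ⟨n - 1, by omega⟩
      rw [Finset.sum_Icc_succ_top (by omega), Nat.add_sub_cancel]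
      ring
    have h3 := hC n hn
    have h4 := hC (n - 1) (by omega)
    have h5 : ((n - 1 : ℕ) : ℝ) ^ (-θ) ≤ 2 ^ θ * (n : ℝ) ^ (-θ) := by
      have h6 : (n : ℝ) / 2 ≤ ((n - 1 : ℕ) : ℝ) := by
        rw [Nat.cast_sub hn, Nat.cast_one]
        have : (2 : ℝ) ≤ n := by exact_mod_cast h2
        linarith
      refine (Real.rpow_le_rpow_of_nonpos (by positivity) h6 (by linarith)).trans ?_
      rw [Real.div_rpow hn0.le (by norm_num), Real.rpow_neg (by norm_num : (0 : ℝ) ≤ 2),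
        div_inv_eq_mul, mul_comm]
    have h7 : ‖f n‖ ≤ (C + C * 2 ^ θ) * (n : ℝ) ^ (-θ) := by
      rw [e]
      refine (norm_sub_le _ _).trans ?_
      calc _ ≤ C * (n : ℝ) ^ (-θ) + C * (2 ^ θ * (n : ℝ) ^ (-θ)) :=
            add_le_add h3 (h4.trans (by gcongr))
        _ = _ := by ring
    calc ‖f n‖ * (n : ℝ) ^ θ ≤ (C + C * 2 ^ θ) * (n : ℝ) ^ (-θ) * (n : ℝ) ^ θ := by gcongr
      _ = C + C * 2 ^ θ := by
        rw [mul_assoc, ← Real.rpow_add hn0, neg_add_cancel, Real.rpow_zero, mul_one]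

/-- a completely multiplicative function with real values at the primes is real -/
theorem CM.real {f : ℕ → ℂ} (hf : CM f) (h : ∀ p : ℕ, p.Prime → (f p).im = 0) (n : ℕ) (hn : 1 ≤ n) :
    (f n).im = 0 := by
  induction n using Nat.recOnMul with
  | zero => omega
  | one => rw [hf.1]; simp
  | prime p hp => exact h p hp
  | mul a b iha ihb =>
    have ha : 1 ≤ a := by
      rcases Nat.eq_zero_or_pos a with h0 | h0
      · subst h0; simp at hn
      · exact h0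
    have hb : 1 ≤ b := by
      rcases Nat.eq_zero_or_pos b with h0 | h0
      · subst h0; simp at hn
      · exact h0
    rw [hf.2 a b ha hb, Complex.mul_im, iha ha, ihb hb]
    simp

/-- **The main construction.** -/
theorem dense (θ₀ C₀ : ℝ) (f₀ : ℕ → ℂ) (hf₀ : CM f₀)
    (hC₀ : ∀ N : ℕ, 1 ≤ N → ‖∑ n ∈ Icc 1 N, f₀ n‖ ≤ C₀ * (N : ℝ) ^ (-θ₀)) (θ : ℝ) (hθ : 0 < θ)
    (hθ₀ : θ < θ₀) (h : ℕ → ℂ) (hh : CM h)
    (hlit : Tendsto (fun n : ℕ => ‖h n‖ * (n : ℝ) ^ θ) atTop (𝓝 0)) (ε : ℝ) (hε : 0 < ε) (M : ℕ) :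
    ∃ f : ℕ → ℂ, CM f ∧ (∀ p : ℕ, p.Prime → f p = h p ∨ f p = f₀ p) ∧
      (∀ n : ℕ, 1 ≤ n → n ≤ M → f n = h n) ∧
      (∀ n : ℕ, 1 ≤ n → ‖f n - h n‖ * (n : ℝ) ^ θ ≤ ε) ∧
      ∃ c C : ℝ, 0 < c ∧ 0 ≤ C ∧
        ∀ N : ℕ, 1 ≤ N → ‖∑ n ∈ Icc 1 N, f n‖ ≤ C * (N : ℝ) ^ (-(θ + c)) := by
  set e : ℝ := min (ε / 2) 1 with he
  have he0 : 0 < e := by positivity
  have he1 : e ≤ 1 := min_le_right _ _
  have he2 : 2 * e ≤ ε := by
    have := min_le_left (ε / 2) 1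
    linarith
  -- `f₀` is bounded by `n^(-θ₀)`
  have hb0 : ∀ n : ℕ, 1 ≤ n → ‖f₀ n‖ * (n : ℝ) ^ θ₀ ≤ 1 :=
    hf₀.le_of_bound θ₀ _ (term_bound θ₀ C₀ (by linarith) hC₀)
  have hlit0 : Tendsto (fun n : ℕ => ‖f₀ n‖ * (n : ℝ) ^ θ) atTop (𝓝 0) := by
    have h1 : Tendsto (fun n : ℕ => (n : ℝ) ^ (-(θ₀ - θ))) atTop (𝓝 0) :=
      (tendsto_rpow_neg_atTop (by linarith)).comp tendsto_natCast_atTop_atTop
    refine squeeze_zero' (Eventually.of_forall fun n => by positivity) ?_ h1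
    filter_upwards [eventually_ge_atTop 1] with n hn
    have hn0 : (0 : ℝ) < n := by exact_mod_cast hn
    have h2 : ‖f₀ n‖ * (n : ℝ) ^ θ = ‖f₀ n‖ * (n : ℝ) ^ θ₀ * (n : ℝ) ^ (-(θ₀ - θ)) := by
      rw [mul_assoc, ← Real.rpow_add hn0]
      congr 2
      ring
    rw [h2]
    exact mul_le_of_le_one_left (by positivity) (hb0 n hn)
  -- the bound for the primes
  obtain ⟨y, hy⟩ := ((hlit.eventually_le_const he0).and
    ((hlit0.eventually_le_const he0).and (eventually_gt_atTop M))).exists_forall_of_atTop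
  set P : Set ℕ := {p : ℕ | p.Prime ∧ p < y} with hP
  have hPfin : P.Finite := (Set.finite_lt_nat y).subset fun p hp => hp.2
  set f : ℕ → ℂ := X26.CM.repl P h f₀ with hfdef
  have hf : CM f := ⟨X26.CM.repl_one P h f₀, fun m n _ _ => X26.CM.repl_mul P h f₀ m n⟩
  have hin : ∀ p : ℕ, p.Prime → p < y → f p = h p := fun p hp hpy =>
    X26.CM.repl_in P h f₀ p hp ⟨hp, hpy⟩
  have hout : ∀ p : ℕ, p.Prime → y ≤ p → f p = f₀ p := fun p hp hpy =>
    X26.CM.repl_out P h f₀ p hp fun h => absurd h.2 (not_lt.mpr hpy)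
  have hh1 : ∀ p : ℕ, p.Prime → ‖h p‖ * (p : ℝ) ^ θ < 1 := fun p hp =>
    hh.lt_of_little θ hlit p hp.two_le
  have hcl := close hf hh θ e y he0.le he1 (fun p hp => (hh1 p hp).le) hin
    (fun p hp hpy => by rw [hout p hp hpy]; exact (hy p hpy).2.1)
    (fun p hp hpy => (hy p hpy).1)
  -- the exponent
  have hexp : ∃ c : ℝ, 0 < c ∧ θ + c < θ₀ ∧ ∀ p ∈ P, ‖h p‖ * (p : ℝ) ^ (θ + c) < 1 := by
    have h2 : ∀ᶠ c in 𝓝[>] (0 : ℝ), ∀ p ∈ P, ‖h p‖ * (p : ℝ) ^ (θ + c) < 1 := by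
      rw [Filter.eventually_all_finite hPfin]
      intro p hp
      have hp0 : (0 : ℝ) < p := by exact_mod_cast hp.1.pos
      have hc : Continuous fun c : ℝ => ‖h p‖ * (p : ℝ) ^ (θ + c) := by
        refine continuous_const.mul ?_
        exact Continuous.rpow continuous_const (by fun_prop) (fun _ => Or.inl hp0.ne')
      have h3 : Tendsto (fun c : ℝ => ‖h p‖ * (p : ℝ) ^ (θ + c)) (𝓝[>] 0)
          (𝓝 (‖h p‖ * (p : ℝ) ^ (θ + 0 : ℝ))) :=
        (hc.tendsto 0).mono_left nhdsWithin_le_nhds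
      refine h3.eventually_lt_const ?_
      rw [add_zero]
      exact hh1 p hp.1
    have h3 : Set.Ioo (0 : ℝ) (θ₀ - θ) ∈ 𝓝[>] (0 : ℝ) := Ioo_mem_nhdsGT (by linarith)
    obtain ⟨c, hc1, hc2⟩ := (h2.and h3).exists
    exact ⟨c, hc2.1, by linarith [hc2.2], hc1⟩
  obtain ⟨c, hc0, hc1, hc2⟩ := hexp
  refine ⟨f, hf, ?_, ?_, fun n hn => (hcl n hn).2.2.2.trans he2, ?_⟩
  · intro p hp
    by_cases hpy : p < y
    · exact Or.inl (hin p hp hpy)
    · exact Or.inr (hout p hp (not_lt.mp hpy))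
  · intro n hn hnM
    refine (hcl n hn).2.2.1 fun p hp hpn => ?_
    have h1 : p ≤ n := Nat.le_of_dvd hn hpn
    have h2 := (hy y le_rfl).2.2
    omega
  · have hlt : ∀ p : ℕ, p.Prime → ‖f p‖ * (p : ℝ) ^ (θ + c) < 1 := by
      intro p hp
      have hp0 : (0 : ℝ) < p := by exact_mod_cast hp.pos
      have hp1 : (1 : ℝ) < p := by exact_mod_cast hp.one_lt
      by_cases hpy : p < y
      · rw [hin p hp hpy]; exact hc2 p ⟨hp, hpy⟩
      · rw [hout p hp (not_lt.mp hpy)]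
        have h1 : ‖f₀ p‖ * (p : ℝ) ^ (θ + c) =
            ‖f₀ p‖ * (p : ℝ) ^ θ₀ * (p : ℝ) ^ (-(θ₀ - (θ + c))) := by
          rw [mul_assoc, ← Real.rpow_add hp0]
          congr 2
          ring
        rw [h1]
        refine lt_of_le_of_lt (mul_le_of_le_one_left (by positivity) (hb0 p hp.one_lt.le)) ?_
        exact Real.rpow_lt_one_of_one_lt_of_neg hp1 (by linarith)
    have hS : Summable fun p : ℕ => if p.Prime then ‖f p - f₀ p‖ * (p : ℝ) ^ (θ + c) else 0 := by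
      refine summable_of_ne_finset_zero (s := Finset.range y) fun p hp => ?_
      rw [Finset.mem_range, not_lt] at hp
      split_ifs with hpp
      · rw [hout p hpp hp, sub_self, norm_zero, zero_mul]
      · rfl
    have hw : Tendsto (fun p : ℕ => if p.Prime then ‖f p‖ * (p : ℝ) ^ (θ + c) else 0) atTop
        (𝓝 0) := by
      have h1 : Tendsto (fun n : ℕ => (n : ℝ) ^ (-(θ₀ - (θ + c)))) atTop (𝓝 0) :=
        (tendsto_rpow_neg_atTop (by linarith)).comp tendsto_natCast_atTop_atTop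
      refine squeeze_zero' (Eventually.of_forall fun p => by split_ifs <;> positivity) ?_ h1
      filter_upwards [eventually_ge_atTop (max 1 y)] with p hp
      have hp1 : 1 ≤ p := (le_max_left _ _).trans hp
      have hp0 : (0 : ℝ) < p := by exact_mod_cast hp1
      split_ifs with hpp
      · rw [hout p hpp ((le_max_right _ _).trans hp)]
        have h1 : ‖f₀ p‖ * (p : ℝ) ^ (θ + c) =
            ‖f₀ p‖ * (p : ℝ) ^ θ₀ * (p : ℝ) ^ (-(θ₀ - (θ + c))) := by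
          rw [mul_assoc, ← Real.rpow_add hp0]
          congr 2
          ring
        rw [h1]
        exact mul_le_of_le_one_left (by positivity) (hb0 p hp1)
      · positivity
    have hC₀0 : 0 ≤ C₀ := by
      have := hC₀ 1 le_rfl
      rw [Nat.cast_one, Real.one_rpow, mul_one] at this
      exact (norm_nonneg _).trans this
    obtain ⟨C', hC'0, hC'⟩ := X26.CM.keep_rpow (θ + c) (by linarith) f₀ f hf₀.1
      (fun m n hm hn => hf₀.2 m n hm hn) hf.1 (fun m n hm hn => hf.2 m n hm hn) hlt hS hw C₀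
      (fun N hN => (hC₀ N hN).trans (by
        have hN1 : (1 : ℝ) ≤ N := by exact_mod_cast hN
        have := Real.rpow_le_rpow_of_exponent_le hN1 (show -θ₀ ≤ -(θ + c) by linarith)
        gcongr))
    exact ⟨c, C', hc0, hC'0, hC'⟩

end Pool.Agent.KS6_1.CMO
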